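import Pool.Agent.Lib.MP_226ef1_lc.U.Iface
import Pool.Agent.Lib.MP_226ef1_lc.U.Tools

/-!
# Consequences of the Block Lemma: (8.1) - (8.4)
-/

set_option autoImplicit false

namespace Pool.Agent.Lib.MP_226ef1_lc.U.H21

open Pool.Agent.Lib.MP_226ef1_lc.U

universe u

section col
variable {α : Type u}

open Classical in
/-- the colouring with the mains `A` and the hubs `B` mapped to the seeds -/
noncomputable def colr (main : α → Prop) (A B : List α) (x : α) : ℕ :=
  if main x then (if x ∈ A then cc (A.idxOf x) else dd 0)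
  else (if x ∈ B then kk (B.idxOf x) else oo 0)

variable {main : α → Prop} {A B : List α} {x y : α}

theorem colr_odd : main x ↔ colr main A B x % 2 = 1 := by
  unfold colr cc dd kk oo
  by_cases h : main x
  · by_cases h2 : x ∈ A
    · simp only [h, h2, if_true, true_iff]; omega
    · simp only [h, h2, if_true, if_false]
  · by_cases h2 : x ∈ B
    · simp only [h, h2, if_true, if_false, false_iff]; omega
    · simp only [h, h2, if_false, false_iff]; norm_num

theorem mem_sds {r h c : ℕ} : c ∈ sds r h ↔ (∃ i, i < r ∧ c = cc i) ∨ (∃ i, i < h ∧ c = kk i) := by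
  simp only [sds, List.mem_append, List.mem_map, List.mem_range]
  constructor
  · rintro (⟨i, hi, rfl⟩ | ⟨i, hi, rfl⟩)
    · exact Or.inl ⟨i, hi, rfl⟩
    · exact Or.inr ⟨i, hi, rfl⟩
  · rintro (⟨i, hi, rfl⟩ | ⟨i, hi, rfl⟩)
    · exact Or.inl ⟨i, hi, rfl⟩
    · exact Or.inr ⟨i, hi, rfl⟩

/-- the colour is a seed exactly for the elements of `A` and `B` -/
theorem colr_mem_sds (hA : ∀ a ∈ A, main a) (hB : ∀ b ∈ B, ¬ main b) :
    colr main A B x ∈ sds A.length B.length ↔ (x ∈ A ∨ x ∈ B) := by
  classical
  rw [mem_sds]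
  constructor
  · intro h
    by_contra hcon
    push Not at hcon
    unfold colr cc kk dd oo at h
    by_cases hm : main x
    · simp only [hm, if_true, hcon.1, if_false] at h
      rcases h with ⟨i, _, h⟩ | ⟨i, _, h⟩ <;> omega
    · simp only [hm, if_false, hcon.2] at h
      rcases h with ⟨i, _, h⟩ | ⟨i, _, h⟩ <;> omega
  · rintro (h | h)
    · left
      refine ⟨A.idxOf x, List.idxOf_lt_length_iff.2 h, ?_⟩
      unfold colr
      simp only [hA x h, h, if_true]
    · right
      refine ⟨B.idxOf x, List.idxOf_lt_length_iff.2 h, ?_⟩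
      unfold colr
      simp only [hB x h, h, if_true, if_false]

/-- the colour determines the elements of `A` and `B` -/
theorem colr_inj (hA : ∀ a ∈ A, main a) (hB : ∀ b ∈ B, ¬ main b) (hx : x ∈ A ∨ x ∈ B)
    (hxy : colr main A B y = colr main A B x) : y = x := by
  classical
  have hy : y ∈ A ∨ y ∈ B := by
    rw [← colr_mem_sds hA hB, hxy, colr_mem_sds hA hB]
    exact hx
  unfold colr cc kk dd oo at hxy
  rcases hx with hx | hx
  · rcases hy with hy | hy
    · simp only [hA x hx, hA y hy, hx, hy, if_true] at hxy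
      exact List.idxOf_inj (by exact hy) |>.1 (by omega)
    · simp only [hA x hx, hB y hy, hx, hy, if_true, if_false] at hxy
      omega
  · rcases hy with hy | hy
    · simp only [hB x hx, hA y hy, hx, hy, if_true, if_false] at hxy
      omega
    · simp only [hB x hx, hB y hy, hx, hy, if_true, if_false] at hxy
      exact List.idxOf_inj (by exact hy) |>.1 (by omega)

theorem colr_A (hA : ∀ a ∈ A, main a) (hnd : A.Nodup) {i : ℕ} (hi : i < A.length) :
    colr main A B A[i] = cc i := by
  classical
  unfold colr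
  simp only [hA _ (List.getElem_mem hi), List.getElem_mem hi, if_true]
  rw [hnd.idxOf_getElem]

theorem colr_B (hB : ∀ b ∈ B, ¬ main b) (hnd : B.Nodup) {i : ℕ} (hi : i < B.length) :
    colr main A B B[i] = kk i := by
  classical
  unfold colr
  simp only [hB _ (List.getElem_mem hi), List.getElem_mem hi, if_true, if_false]
  rw [hnd.idxOf_getElem]

/-- the colouring satisfies the hypotheses of the Block Lemma -/
theorem goodC_colr {G : Finset α} {gen : Finset α → Prop}
    (gen_up : ∀ Y Y', gen Y → Y ⊆ Y' → Y' ⊆ G → gen Y') {l : ℕ} {bad : List ℕ → Prop}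
    {Z : Finset α} (hZ : gen Z) (hZG : Z ⊆ G) (hAB : ∀ t, t ∈ Z ↔ (t ∈ A ∨ t ∈ B))
    (hA : ∀ a ∈ A, main a) (hB : ∀ b ∈ B, ¬ main b) (hAn : A.Nodup) (hBn : B.Nodup) :
    GoodC (mkT l A.length B.length (fun k => k = 0) 1 bad) G main gen (colr main A B) := by
  classical
  refine ⟨fun x _ => ⟨?_, colr_odd⟩, ?_, ?_⟩
  · show (∃ i, i < A.length ∧ _) ∨ (∃ i, i < B.length ∧ _) ∨ (∃ k, k = 0 ∧ _) ∨ (∃ i, i < 1 ∧ _)
    unfold colr
    by_cases hm : main x
    · by_cases hx : x ∈ A
      · simp only [hm, hx, if_true]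
        exact Or.inl ⟨_, List.idxOf_lt_length_iff.2 hx, rfl⟩
      · simp only [hm, hx, if_true, if_false]
        exact Or.inr (Or.inr (Or.inl ⟨0, rfl, rfl⟩))
    · by_cases hx : x ∈ B
      · simp only [hm, hx, if_true, if_false]
        exact Or.inr (Or.inl ⟨_, List.idxOf_lt_length_iff.2 hx, rfl⟩)
      · simp only [hm, hx, if_false]
        exact Or.inr (Or.inr (Or.inr ⟨0, by omega, rfl⟩))
  · intro s hs
    have hs' : s ∈ sds A.length B.length := hs
    rw [mem_sds] at hs'
    rcases hs' with ⟨i, hi, rfl⟩ | ⟨i, hi, rfl⟩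
    · exact ⟨A[i], hZG ((hAB _).2 (Or.inl (List.getElem_mem hi))), colr_A hA hAn hi⟩
    · exact ⟨B[i], hZG ((hAB _).2 (Or.inr (List.getElem_mem hi))), colr_B hB hBn hi⟩
  · intro Y' hY' hcov
    refine gen_up Z Y' hZ ?_ hY'
    intro x hx
    have hx' := (hAB x).1 hx
    have hs : colr main A B x ∈ sds A.length B.length := (colr_mem_sds hA hB).2 hx'
    obtain ⟨y, hy, hyx⟩ := hcov _ hs
    rw [← colr_inj hA hB hx' hyx]
    exact hy

end col

section split
variable {α : Type u}

open Classical in
/-- the mains of a finite set as a list -/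
noncomputable def mList (main : α → Prop) (Z : Finset α) : List α := (Z.filter main).toList

open Classical in
/-- the hubs of a finite set as a list -/
noncomputable def hList (main : α → Prop) (Z : Finset α) : List α :=
  (Z.filter fun x => ¬ main x).toList

theorem mem_mList {main : α → Prop} {Z : Finset α} {x : α} :
    x ∈ mList main Z ↔ x ∈ Z ∧ main x := by
  classical
  simp [mList]

theorem mem_hList {main : α → Prop} {Z : Finset α} {x : α} :
    x ∈ hList main Z ↔ x ∈ Z ∧ ¬ main x := by
  classical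
  simp [hList]

theorem len_split (main : α → Prop) (Z : Finset α) :
    (mList main Z).length + (hList main Z).length = Z.card := by
  classical
  unfold mList hList
  rw [Finset.length_toList, Finset.length_toList]
  exact Finset.card_filter_add_card_filter_not _

theorem mList_nodup (main : α → Prop) (Z : Finset α) : (mList main Z).Nodup := by
  classical
  exact Finset.nodup_toList _

theorem hList_nodup (main : α → Prop) (Z : Finset α) : (hList main Z).Nodup := by
  classical
  exact Finset.nodup_toList _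

theorem mem_split {main : α → Prop} {Z : Finset α} {t : α} :
    t ∈ Z ↔ (t ∈ mList main Z ∨ t ∈ hList main Z) := by
  rw [mem_mList, mem_hList]
  tauto

theorem goodC_split {J : TS} {G : Finset α} {main : α → Prop} {gen : Finset α → Prop}
    {N : List α → Prop} (h : Core J G main gen N) {l : ℕ} {bad : List ℕ → Prop}
    {Z : Finset α} (hZ : gen Z) :
    GoodC (mkT l (mList main Z).length (hList main Z).length (fun k => k = 0) 1 bad) G main gen
      (colr main (mList main Z) (hList main Z)) :=
  goodC_colr h.gen_up hZ (h.gen_sub Z hZ).2 (fun _ => mem_split)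
    (fun _ ha => (mem_mList.1 ha).2) (fun _ ha => (mem_hList.1 ha).2) (mList_nodup _ _)
    (hList_nodup _ _)

end split

/-- module C1: (8.1) -/
theorem c1 : C1Statement.{u} := by
  classical
  intro J hJ α G main gen N h Z hZ hZ5 o ho o' ho' hm hm'
  by_contra hne
  have hg := goodC_split h (l := J.L)
    (bad := nfw J.L (mList main Z).length (hList main Z).length) hZ
  have hlen := len_split main Z
  have h2 : 2 ≤ (hList main Z).length := by
    have hsub : ({o, o'} : Finset α) ⊆ Z.filter fun x => ¬ main x := by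
      intro t ht
      simp only [Finset.mem_insert, Finset.mem_singleton] at ht
      rw [Finset.mem_filter]
      rcases ht with rfl | rfl
      · exact ⟨ho, hm⟩
      · exact ⟨ho', hm'⟩
    have hc := Finset.card_le_card hsub
    rw [Finset.card_pair hne] at hc
    unfold hList
    rw [Finset.length_toList]
    exact hc
  obtain ⟨v, hv, _⟩ := h.bl (FF J (mList main Z).length (hList main Z).length)
    (Or.inr (Or.inr (Or.inr (Or.inr ⟨_, _, h2, by omega, rfl⟩)))) _ hg
  exact hv.2.1.2.2 hv.2.2

/-- the content of a bad word whose image has the content of the seeds -/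
theorem mem_iff_of_content {α : Type u} {main : α → Prop} {A B : List α}
    (hA : ∀ a ∈ A, main a) (hB : ∀ b ∈ B, ¬ main b) {v : List α}
    (hv : ∀ s ∈ sds A.length B.length, s ∈ v.map (colr main A B)) {x : α}
    (hx : x ∈ A ∨ x ∈ B) : x ∈ v := by
  have h1 := hv _ ((colr_mem_sds hA hB).2 hx)
  rw [List.mem_map] at h1
  obtain ⟨y, hy, hyx⟩ := h1
  rw [← colr_inj hA hB hx hyx]
  exact hy

/-- module C2: (8.2) -/
theorem c2 : C2Statement.{u} := by
  classical
  intro J hJ α G main gen N h Z hZ hZ5 o ho hom hothers hex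
  have hlen := len_split main Z
  have hh : (hList main Z).length = 1 := by
    unfold hList
    rw [Finset.length_toList, Finset.card_eq_one]
    refine ⟨o, ?_⟩
    ext t
    simp only [Finset.mem_filter, Finset.mem_singleton]
    constructor
    · rintro ⟨ht, htm⟩
      by_contra hne
      exact htm (hothers t ht hne)
    · rintro rfl
      exact ⟨ho, hom⟩
  have hm : 1 ≤ (mList main Z).length := by
    obtain ⟨x, hx, hxm⟩ := hex
    exact List.length_pos_of_mem (mem_mList.2 ⟨hx, hxm⟩)
  have hg := goodC_split h (l := J.L)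
    (bad := fun w => nfw J.L (mList main Z).length 1 w ∨
    (w.length = J.L ∧ w.sum % 2 = 0 ∧ ∀ c, c ∈ w ↔ c ∈ sds (mList main Z).length 1)) hZ
  obtain ⟨v, hv, hN⟩ := h.bl (G1 J (mList main Z).length)
    (Or.inr (Or.inr (Or.inr (Or.inl ⟨_, hm, by omega, rfl⟩))))
    (colr main (mList main Z) (hList main Z)) (by rw [hh] at hg; exact hg)
  have hfull : ∀ s ∈ sds (mList main Z).length (hList main Z).length,
      s ∈ v.map (colr main (mList main Z) (hList main Z)) := by
    rw [hh]; exact hv.2.2
  have hAm : ∀ a ∈ mList main Z, main a := fun _ ha => (mem_mList.1 ha).2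
  have hBm : ∀ a ∈ hList main Z, ¬ main a := fun _ ha => (mem_hList.1 ha).2
  rcases hv.2.1 with hb | ⟨hb1, hb2, hb3⟩
  · exact absurd hv.2.2 hb.2.2
  · refine ⟨v, fun x => ⟨fun hx => ?_, fun hx => ?_⟩, ?_, ?_, hN⟩
    · have h1 := (hb3 _).1 (List.mem_map_of_mem (f := colr main (mList main Z) (hList main Z)) hx)
      have h2 : colr main (mList main Z) (hList main Z) x ∈
          sds (mList main Z).length (hList main Z).length := by rw [hh]; exact h1
      rw [colr_mem_sds hAm hBm] at h2
      exact mem_split.2 h2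
    · exact mem_iff_of_content hAm hBm hfull (mem_split.1 hx)
    · simpa using hb1
    · rw [← hb2]
      exact (sum_map_mod fun a _ => colr_odd).symm

/-- module C3: (8.3) -/
theorem c3 : C3Statement.{u} := by
  classical
  intro J hJ α G main gen N h Z hZ hZ5 hall
  have hlen := len_split main Z
  have hh : (hList main Z).length = 0 := by
    rw [List.length_eq_zero_iff, List.eq_nil_iff_forall_not_mem]
    intro a ha
    exact (mem_hList.1 ha).2 (hall a (mem_hList.1 ha).1)
  have hm : 1 ≤ (mList main Z).length := by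
    obtain ⟨x, hx⟩ := (h.gen_sub Z hZ).1
    exact List.length_pos_of_mem (mem_mList.2 ⟨hx, hall x hx⟩)
  have hg := goodC_split h (l := J.L)
    (bad := fun w => nfw J.L (mList main Z).length 0 w ∨
    (w.length = J.L ∧ w.sum % 2 = 0 ∧ ∀ c, c ∈ w ↔ (c ∈ sds (mList main Z).length 0 ∨ c = oo 0)))
    hZ
  obtain ⟨v, hv, hN⟩ := h.bl (G0 J (mList main Z).length)
    (Or.inr (Or.inr (Or.inl ⟨_, hm, by omega, rfl⟩)))
    (colr main (mList main Z) (hList main Z)) (by rw [hh] at hg; exact hg)
  have hfull : ∀ s ∈ sds (mList main Z).length (hList main Z).length,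
      s ∈ v.map (colr main (mList main Z) (hList main Z)) := by
    rw [hh]; exact hv.2.2
  have hAm : ∀ a ∈ mList main Z, main a := fun _ ha => (mem_mList.1 ha).2
  have hBm : ∀ a ∈ hList main Z, ¬ main a := fun _ ha => (mem_hList.1 ha).2
  rcases hv.2.1 with hb | ⟨hb1, hb2, hb3⟩
  · exact absurd hv.2.2 hb.2.2
  · refine ⟨v, fun x hx => mem_iff_of_content hAm hBm hfull (mem_split.1 hx),
      fun x hx => ⟨hv.1 x hx, fun hxm => ?_⟩, ?_, ?_, ?_, hN⟩
    · have h1 := (hb3 _).1 (List.mem_map_of_mem (f := colr main (mList main Z) (hList main Z)) hx)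
      rcases h1 with h1 | h1
      · have h2 : colr main (mList main Z) (hList main Z) x ∈
            sds (mList main Z).length (hList main Z).length := by rw [hh]; exact h1
        rw [colr_mem_sds hAm hBm] at h2
        exact mem_split.2 h2
      · exfalso
        have h3 := (colr_odd (A := mList main Z) (B := hList main Z)).1 hxm
        rw [h1] at h3
        unfold oo at h3
        omega
    · have h1 := (hb3 (oo 0)).2 (Or.inr rfl)
      rw [List.mem_map] at h1
      obtain ⟨o, ho, hoc⟩ := h1
      refine ⟨o, ho, fun hom => ?_⟩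
      have h3 := (colr_odd (A := mList main Z) (B := hList main Z)).1 hom
      rw [hoc] at h3
      unfold oo at h3
      omega
    · simpa using hb1
    · rw [← hb2]
      exact (sum_map_mod fun a _ => colr_odd).symm

/-- module C4: (8.4) -/
theorem c4 : C4Statement.{u} := by
  classical
  intro J hJ α G main gen N h x y z hxy hyz hzx hx hy hz hgen
  obtain ⟨Z, hZ, hZm⟩ := hgen
  have hAm : ∀ a ∈ [x, y, z], main a := by
    intro a ha
    simp only [List.mem_cons, List.not_mem_nil, or_false] at ha
    rcases ha with rfl | rfl | rfl <;> assumption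
  have hBm : ∀ a ∈ ([] : List α), ¬ main a := by simp
  have hnd : [x, y, z].Nodup := by
    simp [hxy, hyz, Ne.symm hzx]
  have hg : GoodC (mkT J.L [x, y, z].length ([] : List α).length (fun k => k = 0) 1
      (fun w => nfw J.L 3 0 w ∨ bad3 J w)) G main gen (colr main [x, y, z] []) :=
    goodC_colr h.gen_up hZ (h.gen_sub Z hZ).2 (fun t => by rw [hZm]; simp) hAm hBm hnd
      List.nodup_nil
  obtain ⟨v, hv, hN⟩ := h.bl (L3 J) (Or.inr (Or.inl rfl)) (colr main [x, y, z] []) hg
  have hcol0 : ∀ t, colr main [x, y, z] [] t = cc 0 → t = x := by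
    intro t ht
    have h0 : colr main [x, y, z] [] x = cc 0 := colr_A (i := 0) hAm hnd (by simp)
    exact colr_inj hAm hBm (Or.inl (by simp)) (ht.trans h0.symm)
  have hcol1 : ∀ t, colr main [x, y, z] [] t = cc 1 → t = y := by
    intro t ht
    have h0 : colr main [x, y, z] [] y = cc 1 := colr_A (i := 1) hAm hnd (by simp)
    exact colr_inj hAm hBm (Or.inl (by simp)) (ht.trans h0.symm)
  have hcol2 : ∀ t, colr main [x, y, z] [] t = cc 2 → t = z := by
    intro t ht
    have h0 : colr main [x, y, z] [] z = cc 2 := colr_A (i := 2) hAm hnd (by simp)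
    exact colr_inj hAm hBm (Or.inl (by simp)) (ht.trans h0.symm)
  have hcolo : ∀ t, colr main [x, y, z] [] t = oo 0 → ¬ main t := by
    intro t ht htm
    have h3 := (colr_odd (A := [x, y, z]) (B := [])).1 htm
    rw [ht] at h3
    unfold oo at h3
    omega
  rcases hv.2.1 with hb | ⟨i, j, k, hi, hj, hk, hleg, hw⟩
  · exact absurd hv.2.2 hb.2.2
  · refine ⟨i, j, k, hi, hj, hk, hleg, ?_⟩
    rw [List.map_eq_cons_iff] at hw
    obtain ⟨x0, v1, rfl, hx0, hw1⟩ := hw
    rw [List.map_eq_append_iff] at hw1
    obtain ⟨W1, v2, rfl, hW1, hw2⟩ := hw1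
    rw [List.map_eq_cons_iff] at hw2
    obtain ⟨y0, v3, rfl, hy0, hw3⟩ := hw2
    rw [List.map_eq_append_iff] at hw3
    obtain ⟨W2, v4, rfl, hW2, hw4⟩ := hw3
    rw [List.map_eq_cons_iff] at hw4
    obtain ⟨z0, v5, rfl, hz0, hw5⟩ := hw4
    rw [List.map_eq_append_iff] at hw5
    obtain ⟨W3, v6, rfl, hW3, hw6⟩ := hw5
    rw [List.map_eq_cons_iff] at hw6
    obtain ⟨x1, v7, rfl, hx1, hw7⟩ := hw6
    rw [List.map_eq_nil_iff] at hw7
    subst hw7
    rw [hcol0 x0 hx0, hcol1 y0 hy0, hcol2 z0 hz0, hcol0 x1 hx1] at hN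
    have hlen : ∀ (W : List α) (n : ℕ), W.map (colr main [x, y, z] []) =
        List.replicate n (oo 0) → W.length = n ∧ ∀ o ∈ W, ¬ main o := by
      intro W n hW
      have h1 : (W.map (colr main [x, y, z] [])).length = n := by rw [hW]; simp
      refine ⟨by simpa using h1, fun o ho => hcolo o ?_⟩
      have h2 : colr main [x, y, z] [] o ∈ W.map (colr main [x, y, z] []) :=
        List.mem_map_of_mem ho
      rw [hW] at h2
      exact List.eq_of_mem_replicate h2
    refine ⟨W1, W2, W3, ?_, (hlen W1 _ hW1).1, (hlen W2 _ hW2).1, (hlen W3 _ hW3).1, hN⟩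
    intro o ho
    have hG : o ∈ G := by
      apply hv.1
      simp only [List.mem_append, List.mem_cons] at ho ⊢
      tauto
    simp only [List.mem_append] at ho
    rcases ho with (ho | ho) | ho
    · exact ⟨hG, (hlen W1 _ hW1).2 o ho⟩
    · exact ⟨hG, (hlen W2 _ hW2).2 o ho⟩
    · exact ⟨hG, (hlen W3 _ hW3).2 o ho⟩

end Pool.Agent.Lib.MP_226ef1_lc.U.H21
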